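import Mathlib
import Pool.Agent.Helper73.PsdGeom
import Pool.Agent.Helper36.PsdField

/-!
# Facets of polytopes with small non-incidence minors, over any commutative ring

A `d`-polytope whose zero-one vertex-facet non-incidence matrix has, over some commutative ring in
which `2 ≠ 0`, only vanishing minors of size `d + 2` has at most `2 ^ d` facets; if the ring is only
assumed nontrivial, it has at most `2 ^ (d + 1) - 1` facets.  Consequences are drawn for the rank
over an arbitrary field and for slack matrices with prescribed residues.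
-/

namespace Pool.Agent.Results.MP_d7e3e4_co.FieldRank

open Pool.Agent.Helper73.Psd Pool.Agent.Helper36.PsdField

/-- A `d`-polytope in `ℝ^d`: the convex hull of a finite set whose affine span is everything. -/
def IsPolytope {d : ℕ} (P : Set (EuclideanSpace ℝ (Fin d))) : Prop :=
  (∃ V : Set (EuclideanSpace ℝ (Fin d)), V.Finite ∧ P = convexHull ℝ V) ∧ affineSpan ℝ P = ⊤

/-- The vertices of `P`: its extreme points. -/
abbrev Vertex {d : ℕ} (P : Set (EuclideanSpace ℝ (Fin d))) : Type := ↥(P.extremePoints ℝ)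

/-- `F` is a facet of `P`: a nonempty exposed face of affine dimension `d - 1`. -/
def IsFacet {d : ℕ} (P F : Set (EuclideanSpace ℝ (Fin d))) : Prop :=
  IsExposed ℝ P F ∧ F.Nonempty ∧ Module.finrank ℝ (vectorSpan ℝ F) + 1 = d

/-- The facets of `P`. -/
abbrev Facet {d : ℕ} (P : Set (EuclideanSpace ℝ (Fin d))) : Type :=
  ↥{F : Set (EuclideanSpace ℝ (Fin d)) | IsFacet P F}

/-- The vertex-facet non-incidence matrix of `P` over `R`: the entry at a vertex `v` and a facet `F`
is `0` if `v` lies on `F`, and `1` otherwise. -/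
noncomputable def nonincidence {d : ℕ} (P : Set (EuclideanSpace ℝ (Fin d))) (R : Type*)
    [CommRing R] : Matrix (Vertex P) (Facet P) R := by
  classical
  exact fun v F => if (v : EuclideanSpace ℝ (Fin d)) ∈ (F : Set (EuclideanSpace ℝ (Fin d)))
    then 0 else 1

/-- All minors of size `k` of `M` vanish. -/
def MinorsVanish {α β R : Type*} [CommRing R] (M : Matrix α β R) (k : ℕ) : Prop :=
  ∀ (r : Fin k → α) (c : Fin k → β), (M.submatrix r c).det = 0

/-- The rank over the field `K` of the non-incidence matrix of `P`: the dimension of the span of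
its columns. -/
noncomputable def fieldRank {d : ℕ} (P : Set (EuclideanSpace ℝ (Fin d))) (K : Type*) [Field K] :
    ℕ :=
  Module.finrank K (Submodule.span K (Set.range fun (F : Facet P) (v : Vertex P) =>
    nonincidence P K v F))

/-- `b - ⟪a, x⟫ ≥ 0` is a valid inequality of `P` that defines the face `F`. -/
def Defines {d : ℕ} (P F : Set (EuclideanSpace ℝ (Fin d))) (a : EuclideanSpace ℝ (Fin d))
    (b : ℝ) : Prop :=
  (∀ x ∈ P, 0 ≤ b - inner ℝ a x) ∧ F = {x | x ∈ P ∧ b - inner ℝ a x = 0}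

/-- `S` is a slack matrix of `P`: its entry at a vertex `v` and a facet `F` is
`b_F - ⟪a_F, v⟫`, where `b_F - ⟪a_F, x⟫ ≥ 0` is a facet-defining inequality of `F`. -/
def IsSlackMatrix {d : ℕ} (P : Set (EuclideanSpace ℝ (Fin d)))
    (S : Matrix (Vertex P) (Facet P) ℝ) : Prop :=
  ∃ (a : Facet P → EuclideanSpace ℝ (Fin d)) (b : Facet P → ℝ),
    (∀ F : Facet P, Defines P F (a F) (b F)) ∧
      ∀ (v : Vertex P) (F : Facet P), S v F = b F - inner ℝ (a F) (v : EuclideanSpace ℝ (Fin d))

/-- A face defined by a valid inequality is the convex hull of its vertices. -/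
theorem face_eq_convexHull {d : ℕ} {P : Set (EuclideanSpace ℝ (Fin d))}
    (hconv : convexHull ℝ (P.extremePoints ℝ) = P) (f : Module.Dual ℝ (EuclideanSpace ℝ (Fin d)))
    (c : ℝ) (hf : ∀ x ∈ P, 0 ≤ c - f x) :
    {x | x ∈ P ∧ c - f x = 0} = convexHull ℝ {x | x ∈ P.extremePoints ℝ ∧ c - f x = 0} := by
  apply Set.Subset.antisymm
  · rintro x ⟨hx, hx0⟩
    rw [← hconv] at hx
    exact mem_convexHull_zeros _ f c (fun s hs => hf s (extremePoints_subset hs)) x hx hx0
  · apply convexHull_min
    · rintro x ⟨hx, hx0⟩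
      exact ⟨extremePoints_subset hx, hx0⟩
    · have h1 : Convex ℝ P := by rw [← hconv]; exact convex_convexHull ℝ _
      have h2 : Convex ℝ {x | c - f x = 0} := by
        intro x hx y hy s t _ _ hst
        show c - f (s • x + t • y) = 0
        have hx' : c - f x = 0 := hx
        have hy' : c - f y = 0 := hy
        rw [map_add, map_smul, map_smul, smul_eq_mul, smul_eq_mul]
        have h3 : c - (s * f x + t * f y) = s * (c - f x) + t * (c - f y) := by
          have h4 : c = s * c + t * c := by rw [← add_mul, hst, one_mul]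
          linear_combination h4
        rw [h3, hx', hy']; ring
      exact h1.inter h2

/-- A bound for the homogenised configuration of `P` is a bound for `P`. -/
theorem bound_of (d m : ℕ) (hd : 1 ≤ d) (P : Set (EuclideanSpace ℝ (Fin d))) (hP : IsPolytope P)
    (hf : ∀ [Fintype (Vertex P)] [Fintype (Facet P)] [DecidableEq (Vertex P)]
      (v : Vertex P → EuclideanSpace ℝ (Fin d) × ℝ)
      (h : Facet P → Module.Dual ℝ (EuclideanSpace ℝ (Fin d) × ℝ)),
      (∀ (F : Facet P) (i : Vertex P), h F (v i) = 0 ↔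
        (i : EuclideanSpace ℝ (Fin d)) ∈ (F : Set (EuclideanSpace ℝ (Fin d)))) →
      rk v Finset.univ = d + 1 →
      (∃ g0 : Module.Dual ℝ (EuclideanSpace ℝ (Fin d) × ℝ), ∀ i, 0 < g0 (v i)) →
      (∀ F : Facet P, (∀ i, 0 ≤ h F (v i)) ∧
        rk v (zs v (h F) Finset.univ) + 1 = rk v Finset.univ) →
      (∀ g : Module.Dual ℝ (EuclideanSpace ℝ (Fin d) × ℝ), (∀ i, 0 ≤ g (v i)) →
        rk v (zs v g Finset.univ) + 1 = rk v Finset.univ →
        ∃ k, zs v (h k) Finset.univ = zs v g Finset.univ) →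
      (∀ F G : Facet P, zs v (h F) Finset.univ = zs v (h G) Finset.univ → F = G) →
      Fintype.card (Facet P) ≤ m) :
    {F : Set (EuclideanSpace ℝ (Fin d)) | IsFacet P F}.Finite ∧
      {F : Set (EuclideanSpace ℝ (Fin d)) | IsFacet P F}.ncard ≤ m := by
  classical
  obtain ⟨hfin, hconv⟩ := convexHull_extremePoints hP.1
  have hexp : ∀ F : Facet P, ∃ (f : Module.Dual ℝ (EuclideanSpace ℝ (Fin d))) (c : ℝ),
      (∀ x ∈ P, 0 ≤ c - f x) ∧
        (F : Set (EuclideanSpace ℝ (Fin d))) = {x | x ∈ P ∧ c - f x = 0} := by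
    intro F
    obtain ⟨hF1, ⟨x0, hx0⟩, _⟩ := F.2
    obtain ⟨l, hl⟩ := hF1 ⟨x0, hx0⟩
    rw [hl] at hx0
    refine ⟨l.toLinearMap, l x0, fun x hx => ?_, ?_⟩
    · have := hx0.2 x hx
      simp only [ContinuousLinearMap.coe_coe]
      linarith
    · rw [hl]
      ext x
      constructor
      · rintro ⟨hx, hx'⟩
        refine ⟨hx, ?_⟩
        have h1 := hx0.2 x hx
        have h2 := hx' x0 hx0.1
        simp only [ContinuousLinearMap.coe_coe]
        linarith
      · rintro ⟨hx, hx'⟩
        refine ⟨hx, fun y hy => ?_⟩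
        have h1 := hx0.2 y hy
        simp only [ContinuousLinearMap.coe_coe] at hx'
        linarith
  choose toF b hdef using hexp
  have : Fintype (Vertex P) := hfin.fintype
  -- the vertices are nonempty
  have hPne : P.Nonempty := by
    rw [Set.nonempty_iff_ne_empty]
    intro hcon
    have h1 := hP.2
    rw [hcon, AffineSubspace.span_empty] at h1
    exact bot_ne_top h1
  have hextne : (P.extremePoints ℝ).Nonempty := by
    rw [Set.nonempty_iff_ne_empty]
    intro hcon
    rw [hcon, convexHull_empty] at hconv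
    rw [← hconv] at hPne
    exact Set.not_nonempty_empty hPne
  -- homogenisation
  let v : Vertex P → EuclideanSpace ℝ (Fin d) × ℝ := fun i => ((i : EuclideanSpace ℝ (Fin d)), 1)
  let mk : Module.Dual ℝ (EuclideanSpace ℝ (Fin d)) → ℝ →
      Module.Dual ℝ (EuclideanSpace ℝ (Fin d) × ℝ) := fun f c =>
    c • LinearMap.snd ℝ _ ℝ - f.comp (LinearMap.fst ℝ _ ℝ)
  have hmk : ∀ f c i, mk f c (v i) = c - f (i : EuclideanSpace ℝ (Fin d)) := by
    intro f c i
    simp [mk, v]
  let h : Facet P → Module.Dual ℝ (EuclideanSpace ℝ (Fin d) × ℝ) := fun F => mk (toF F) (b F)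
  have hh : ∀ F i, h F (v i) = b F - toF F (i : EuclideanSpace ℝ (Fin d)) := by
    intro F i
    rw [show h F = mk (toF F) (b F) from rfl, hmk]
  -- faces
  have hface : ∀ F : Facet P, (F : Set (EuclideanSpace ℝ (Fin d))) =
      convexHull ℝ {x | x ∈ P.extremePoints ℝ ∧ b F - toF F x = 0} := by
    intro F
    have h1 := face_eq_convexHull hconv (toF F) (b F) (hdef F).1
    rw [(hdef F).2]
    exact h1
  have hmemF : ∀ (F : Facet P) (i : Vertex P), h F (v i) = 0 ↔
      (i : EuclideanSpace ℝ (Fin d)) ∈ (F : Set (EuclideanSpace ℝ (Fin d))) := by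
    intro F i
    rw [hh, (hdef F).2]
    constructor
    · intro h1
      exact ⟨extremePoints_subset i.2, h1⟩
    · rintro ⟨_, h1⟩
      exact h1
  have hdetF : ∀ F G : Facet P, (∀ i, h F (v i) = 0 ↔ h G (v i) = 0) → F = G := by
    intro F G hFG
    apply Subtype.ext
    rw [hface F, hface G]
    congr 1
    ext x
    constructor
    · rintro ⟨hx, hx0⟩
      refine ⟨hx, ?_⟩
      have h1 := (hFG ⟨x, hx⟩).1 (by rw [hh]; exact hx0)
      rwa [hh] at h1
    · rintro ⟨hx, hx0⟩
      refine ⟨hx, ?_⟩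
      have h1 := (hFG ⟨x, hx⟩).2 (by rw [hh]; exact hx0)
      rwa [hh] at h1
  have hfinF : Finite (Facet P) := by
    refine Finite.of_injective (fun F : Facet P => {i : Vertex P | h F (v i) = 0}) ?_
    intro F G hFG
    apply hdetF
    intro i
    exact Set.ext_iff.1 hFG i
  have : Fintype (Facet P) := Fintype.ofFinite _
  -- ranks
  have hrk : ∀ T : Finset (Vertex P), T.Nonempty →
      rk v T = Module.finrank ℝ (vectorSpan ℝ
        ((fun i : Vertex P => (i : EuclideanSpace ℝ (Fin d))) '' (T : Set (Vertex P)))) + 1 := by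
    intro T hT
    rw [← finrank_span_homog _ (Set.Nonempty.image _ (Finset.coe_nonempty.2 hT))]
    rw [rk, Set.image_image]
  have hface_rk : ∀ (f : Module.Dual ℝ (EuclideanSpace ℝ (Fin d))) (c : ℝ),
      (∀ x ∈ P, 0 ≤ c - f x) → (zs v (mk f c) Finset.univ).Nonempty →
      rk v (zs v (mk f c) Finset.univ) =
        Module.finrank ℝ (vectorSpan ℝ {x | x ∈ P ∧ c - f x = 0}) + 1 := by
    intro f c hf hne
    have hset : ((fun i : Vertex P => (i : EuclideanSpace ℝ (Fin d))) ''
        (zs v (mk f c) Finset.univ : Set (Vertex P))) =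
        {x | x ∈ P.extremePoints ℝ ∧ c - f x = 0} := by
      ext x
      constructor
      · rintro ⟨i, hi, rfl⟩
        refine ⟨i.2, ?_⟩
        rw [← hmk]
        exact (mem_zs.1 (Finset.mem_coe.1 hi)).2
      · rintro ⟨hx, hx0⟩
        exact ⟨⟨x, hx⟩, Finset.mem_coe.2 (mem_zs.2 ⟨Finset.mem_univ _, by rw [hmk]; exact hx0⟩),
          rfl⟩
    rw [hrk _ hne, face_eq_convexHull hconv f c hf, vectorSpan_convexHull, hset]
  have hrank : rk v Finset.univ = d + 1 := by
    rw [hrk _ (Finset.univ_nonempty_iff.2 ⟨⟨_, hextne.some_mem⟩⟩)]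
    have h1 : (fun i : Vertex P => (i : EuclideanSpace ℝ (Fin d))) ''
        ((Finset.univ : Finset (Vertex P)) : Set (Vertex P)) = P.extremePoints ℝ := by
      rw [Finset.coe_univ, Set.image_univ]
      exact Subtype.range_coe
    rw [h1, ← vectorSpan_convexHull, hconv, ← direction_affineSpan, hP.2,
      AffineSubspace.direction_top, finrank_top, finrank_euclideanSpace, Fintype.card_fin]
  have hE : Module.finrank ℝ (EuclideanSpace ℝ (Fin d) × ℝ) = d + 1 := by
    rw [Module.finrank_prod, finrank_euclideanSpace, Fintype.card_fin, Module.finrank_self]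
  have hpos : ∃ g0 : Module.Dual ℝ (EuclideanSpace ℝ (Fin d) × ℝ), ∀ i, 0 < g0 (v i) :=
    ⟨LinearMap.snd ℝ _ ℝ, fun i => by simp [v]⟩
  have hvert : ∀ i, IsFace v {i} := by
    intro i
    obtain ⟨f, hf⟩ := exists_exposing hfin hconv i i.2
    refine ⟨mk (-f.toLinearMap) (-f i), ?_, ?_⟩
    · intro j
      rw [hmk]
      by_cases hij : j = i
      · subst hij; simp
      · have h1 := hf j j.2 (fun hcon => hij (Subtype.ext hcon))
        simp only [LinearMap.neg_apply, ContinuousLinearMap.coe_coe]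
        linarith
    · ext j
      rw [Finset.mem_singleton, mem_zs, hmk]
      constructor
      · rintro rfl; simp
      · rintro ⟨_, h1⟩
        by_contra hij
        have h2 := hf j j.2 (fun hcon => hij (Subtype.ext hcon))
        simp only [LinearMap.neg_apply, ContinuousLinearMap.coe_coe] at h1
        linarith
  have hne_zs : ∀ F : Facet P, (zs v (h F) Finset.univ).Nonempty := by
    intro F
    obtain ⟨_, ⟨x, hx⟩, _⟩ := F.2
    rw [hface F] at hx
    have h1 : {x | x ∈ P.extremePoints ℝ ∧ b F - toF F x = 0}.Nonempty :=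
      convexHull_nonempty_iff.1 ⟨x, hx⟩
    obtain ⟨z, hz, hz0⟩ := h1
    exact ⟨⟨z, hz⟩, mem_zs.2 ⟨Finset.mem_univ _, by rw [hh]; exact hz0⟩⟩
  have hk : ∀ F : Facet P, (∀ i, 0 ≤ h F (v i)) ∧
      rk v (zs v (h F) Finset.univ) + 1 = rk v Finset.univ := by
    intro F
    refine ⟨fun i => ?_, ?_⟩
    · rw [hh]
      exact (hdef F).1 _ (extremePoints_subset i.2)
    · have h1 := hface_rk (toF F) (b F) (hdef F).1 (hne_zs F)
      have h2 : {x | x ∈ P ∧ b F - toF F x = 0} = (F : Set (EuclideanSpace ℝ (Fin d))) :=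
        (hdef F).2.symm
      rw [h2] at h1
      have h3 : Module.finrank ℝ (vectorSpan ℝ (F : Set (EuclideanSpace ℝ (Fin d)))) + 1 = d :=
        F.2.2.2
      have h4 : rk v (zs v (h F) Finset.univ) = rk v (zs v (mk (toF F) (b F)) Finset.univ) := rfl
      rw [hrank, h4, h1, h3]
  have hfacet : ∀ g : Module.Dual ℝ (EuclideanSpace ℝ (Fin d) × ℝ), (∀ i, 0 ≤ g (v i)) →
      rk v (zs v g Finset.univ) + 1 = rk v Finset.univ →
      ∃ k, zs v (h k) Finset.univ = zs v g Finset.univ := by
    intro g hg hgr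
    let f : Module.Dual ℝ (EuclideanSpace ℝ (Fin d)) := -(g.comp (LinearMap.inl ℝ _ ℝ))
    let c : ℝ := g (0, 1)
    have hgf : ∀ x, g (x, 1) = c - f x := by
      intro x
      have h1 : ((x, (1 : ℝ)) : EuclideanSpace ℝ (Fin d) × ℝ) = (x, 0) + (0, 1) := by
        ext <;> simp
      rw [h1, map_add]
      simp only [f, c, LinearMap.neg_apply, LinearMap.comp_apply, LinearMap.inl_apply]
      ring
    have hg_eq : ∀ i, g (v i) = mk f c (v i) := by
      intro i
      rw [hmk]
      exact hgf _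
    have hzs_eq : zs v g Finset.univ = zs v (mk f c) Finset.univ := by
      ext i
      rw [mem_zs, mem_zs, hg_eq]
    have hfP : ∀ x ∈ P, 0 ≤ c - f x := by
      have h1 : convexHull ℝ (P.extremePoints ℝ) ⊆ {x | 0 ≤ c - f x} := by
        apply convexHull_min
        · intro x hx
          have h2 := hg ⟨x, hx⟩
          rw [hg_eq, hmk] at h2
          exact h2
        · intro x hx y hy s t hs ht hst
          show 0 ≤ c - f (s • x + t • y)
          have hx' : 0 ≤ c - f x := hx
          have hy' : 0 ≤ c - f y := hy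
          rw [map_add, map_smul, map_smul, smul_eq_mul, smul_eq_mul]
          have h3 : c - (s * f x + t * f y) = s * (c - f x) + t * (c - f y) := by
            have h4 : c = s * c + t * c := by rw [← add_mul, hst, one_mul]
            linear_combination h4
          rw [h3]
          positivity
      intro x hx
      rw [← hconv] at hx
      exact h1 hx
    have hne : (zs v (mk f c) Finset.univ).Nonempty := by
      rw [Finset.nonempty_iff_ne_empty]
      intro hcon
      rw [hzs_eq, hcon, hrank, rk, Finset.coe_empty, Set.image_empty, Submodule.span_empty,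
        finrank_bot] at hgr
      omega
    have hr := hface_rk f c hfP hne
    obtain ⟨i0, hi0⟩ := hne
    have hi0' : c - f (i0 : EuclideanSpace ℝ (Fin d)) = 0 := by
      rw [← hmk]; exact (mem_zs.1 hi0).2
    have hF0 : IsFacet P {x | x ∈ P ∧ c - f x = 0} := by
      refine ⟨?_, ⟨i0, extremePoints_subset i0.2, hi0'⟩, ?_⟩
      · intro _
        refine ⟨LinearMap.toContinuousLinearMap f, ?_⟩
        ext x
        constructor
        · rintro ⟨hx, hx0⟩
          refine ⟨hx, fun y hy => ?_⟩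
          have h1 := hfP y hy
          rw [LinearMap.coe_toContinuousLinearMap']
          linarith
        · rintro ⟨hx, hx0⟩
          refine ⟨hx, ?_⟩
          have h1 := hx0 i0 (extremePoints_subset i0.2)
          have h2 := hfP x hx
          rw [LinearMap.coe_toContinuousLinearMap'] at h1
          linarith
      · rw [← hr, ← hzs_eq]
        omega
    refine ⟨⟨_, hF0⟩, ?_⟩
    ext i
    rw [mem_zs, mem_zs, hmemF, hg_eq, hmk]
    constructor
    · rintro ⟨_, _, h1⟩
      exact ⟨Finset.mem_univ _, h1⟩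
    · rintro ⟨_, h1⟩
      exact ⟨Finset.mem_univ _, extremePoints_subset i.2, h1⟩
  have hinj : ∀ F G : Facet P, zs v (h F) Finset.univ = zs v (h G) Finset.univ → F = G := by
    intro F G hFG
    apply hdetF
    intro i
    have h1 := Finset.ext_iff.1 hFG i
    rw [mem_zs, mem_zs] at h1
    simpa using h1
  have hfinal := hf v h hmemF hrank hpos hk hfacet hinj
  have hc1 : {F : Set (EuclideanSpace ℝ (Fin d)) | IsFacet P F}.ncard = Fintype.card (Facet P) := by
    rw [← Nat.card_coe_set_eq, Nat.card_eq_fintype_card]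
  refine ⟨Set.toFinite _, ?_⟩
  rw [hc1]
  exact hfinal

theorem nonincidence_cases {d : ℕ} (P : Set (EuclideanSpace ℝ (Fin d))) (R : Type*) [CommRing R]
    (h : Facet P → Module.Dual ℝ (EuclideanSpace ℝ (Fin d) × ℝ))
    (v : Vertex P → EuclideanSpace ℝ (Fin d) × ℝ)
    (hmem : ∀ (F : Facet P) (i : Vertex P), h F (v i) = 0 ↔
        (i : EuclideanSpace ℝ (Fin d)) ∈ (F : Set (EuclideanSpace ℝ (Fin d))))
    (i : Vertex P) (F : Facet P) :
    (nonincidence P R i F = 0 ∧ h F (v i) = 0) ∨ (nonincidence P R i F = 1 ∧ h F (v i) ≠ 0) := by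
  unfold nonincidence
  by_cases hi : (i : EuclideanSpace ℝ (Fin d)) ∈ (F : Set (EuclideanSpace ℝ (Fin d)))
  · left
    exact ⟨if_pos hi, (hmem F i).2 hi⟩
  · right
    exact ⟨if_neg hi, fun hcon => hi ((hmem F i).1 hcon)⟩

/-- The bound `2 ^ d` over a commutative ring with `2 ≠ 0`. -/
theorem bound_two {d : ℕ} (hd : 1 ≤ d) {P : Set (EuclideanSpace ℝ (Fin d))} (hP : IsPolytope P) {R : Type*}
    [CommRing R] (h2 : (2 : R) ≠ 0) (hmin : MinorsVanish (nonincidence P R) (d + 2)) :
    {F : Set (EuclideanSpace ℝ (Fin d)) | IsFacet P F}.Finite ∧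
      {F : Set (EuclideanSpace ℝ (Fin d)) | IsFacet P F}.ncard ≤ 2 ^ d :=
  bound_of d (2 ^ d) hd P hP fun v h hmem hrank hpos hk hfacet hinj =>
    card_le_two_pow_of_minors h2 v h hrank hpos hk hfacet hinj (nonincidence P R)
      (nonincidence_cases P R h v hmem) hmin

/-- The bound `2 ^ (d + 1) - 1` over a nontrivial commutative ring. -/
theorem bound_any {d : ℕ} (hd : 1 ≤ d) {P : Set (EuclideanSpace ℝ (Fin d))} (hP : IsPolytope P) {R : Type*}
    [CommRing R] (h1 : (1 : R) ≠ 0) (hmin : MinorsVanish (nonincidence P R) (d + 2)) :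
    {F : Set (EuclideanSpace ℝ (Fin d)) | IsFacet P F}.Finite ∧
      {F : Set (EuclideanSpace ℝ (Fin d)) | IsFacet P F}.ncard ≤ 2 ^ (d + 1) - 1 :=
  bound_of d (2 ^ (d + 1) - 1) hd P hP fun v h hmem hrank hpos hk hfacet hinj => by
    have : Nontrivial R := ⟨⟨1, 0, h1⟩⟩
    have h3 := card_lt_two_pow_succ_of_minors v h hrank hpos hk hfacet hinj (nonincidence P R)
      (nonincidence_cases P R h v hmem) hmin
    omega

theorem minors_of_fieldRank {d : ℕ} {P : Set (EuclideanSpace ℝ (Fin d))} (hP : IsPolytope P)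
    {K : Type*} [Field K] (hK : fieldRank P K ≤ d + 1) :
    MinorsVanish (nonincidence P K) (d + 2) := by
  have : Finite (Vertex P) := (convexHull_extremePoints hP.1).1
  intro r c
  exact det_eq_zero_of_finrank_span (nonincidence P K) (d + 1) hK r c

theorem minors_of_slack {d : ℕ} {P : Set (EuclideanSpace ℝ (Fin d))}
    {S : Matrix (Vertex P) (Facet P) ℝ} (hS : IsSlackMatrix P S) (O : Subring ℝ) {R : Type*}
    [CommRing R] (φ : O →+* R) (a : Vertex P → ℝ) (b : Facet P → ℝ) (ha : ∀ v, a v ≠ 0)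
    (hb : ∀ F, b F ≠ 0) (A : Matrix (Vertex P) (Facet P) O)
    (hSA : ∀ v F, S v F = a v * b F * (A v F : ℝ))
    (hφ : ∀ (v : Vertex P) (F : Facet P),
      (v : EuclideanSpace ℝ (Fin d)) ∉ (F : Set (EuclideanSpace ℝ (Fin d))) → φ (A v F) = 1) :
    MinorsVanish (nonincidence P R) (d + 2) := by
  obtain ⟨p, q, hpq, hSval⟩ := hS
  intro r c
  have hE : Module.finrank ℝ (EuclideanSpace ℝ (Fin d) × ℝ) = d + 1 := by
    rw [Module.finrank_prod, finrank_euclideanSpace, Fintype.card_fin, Module.finrank_self]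
  have h1 := det_pairing_eq_zero (d + 1) hE
    (fun s => (((r s : Vertex P) : EuclideanSpace ℝ (Fin d)), (1 : ℝ)))
    (fun t => q (c t) • LinearMap.snd ℝ (EuclideanSpace ℝ (Fin d)) ℝ -
      ((innerSL ℝ (p (c t))).toLinearMap).comp (LinearMap.fst ℝ (EuclideanSpace ℝ (Fin d)) ℝ))
  refine det_map_eq_zero φ _ h1 (fun s => a (r s)) (fun t => b (c t)) (fun s => ha _)
    (fun t => hb _) (A.submatrix r c) (fun s t => ?_) _ (fun s t => ?_)
  · rw [Matrix.submatrix_apply, ← hSA, hSval]
    simp
  · rw [Matrix.submatrix_apply, Matrix.submatrix_apply]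
    unfold nonincidence
    split_ifs with hi
    · have h2 : S (r s) (c t) = 0 := by
        rw [hSval]
        rw [(hpq (c t)).2] at hi
        exact hi.2
      rw [hSA] at h2
      have h3 : A (r s) (c t) = 0 := by
        apply Subtype.ext
        rcases mul_eq_zero.1 h2 with h4 | h4
        · exact absurd h4 (mul_ne_zero (ha _) (hb _))
        · exact h4
      rw [h3, map_zero]
    · exact (hφ _ _ hi).symm

/-- Integer version, with a modulus `q`. -/
theorem minors_of_int {d : ℕ} {P : Set (EuclideanSpace ℝ (Fin d))}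
    {S : Matrix (Vertex P) (Facet P) ℝ} (hS : IsSlackMatrix P S) (q : ℕ)
    (a : Vertex P → ℝ) (b : Facet P → ℝ) (ha : ∀ v, a v ≠ 0)
    (hb : ∀ F, b F ≠ 0) (A : Matrix (Vertex P) (Facet P) ℤ)
    (hSA : ∀ v F, S v F = a v * b F * (A v F : ℝ))
    (hq : ∀ v F, A v F ≠ 0 → ((A v F : ℤ) : ZMod q) = 1) :
    MinorsVanish (nonincidence P (ZMod q)) (d + 2) := by
  have hbij : Function.Injective (Int.castRingHom ℝ) := Int.cast_injective
  let e : ℤ ≃+* (Int.castRingHom ℝ).range := RingEquiv.ofLeftInverse (g := Function.invFun _)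
    (Function.leftInverse_invFun hbij)
  refine minors_of_slack hS (Int.castRingHom ℝ).range
    ((Int.castRingHom (ZMod q)).comp (e.symm : (Int.castRingHom ℝ).range →+* ℤ)) a b ha hb
    (fun v F => e (A v F)) (fun v F => ?_) (fun v F hi => ?_)
  · rw [hSA]
    rfl
  · have h1 : A v F ≠ 0 := by
      intro hcon
      obtain ⟨p, r, hpr, hSval⟩ := hS
      apply hi
      rw [(hpr F).2]
      refine ⟨extremePoints_subset v.2, ?_⟩
      rw [← hSval, hSA, hcon]
      simp
    rw [RingHom.comp_apply]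
    have h2 : (e.symm : (Int.castRingHom ℝ).range →+* ℤ) (e (A v F)) = A v F :=
      e.symm_apply_apply _
    rw [h2]
    exact hq v F h1

/-- The case of a field: the rank of the non-incidence matrix is at most `d + 1`. -/
theorem corollary_field (d : ℕ) (hd : 1 ≤ d) (P : Set (EuclideanSpace ℝ (Fin d)))
    (hP : IsPolytope P) (K : Type*) [Field K] (hK : fieldRank P K ≤ d + 1) :
    ((2 : K) ≠ 0 → {F : Set (EuclideanSpace ℝ (Fin d)) | IsFacet P F}.ncard ≤ 2 ^ d) ∧
      {F : Set (EuclideanSpace ℝ (Fin d)) | IsFacet P F}.ncard ≤ 2 ^ (d + 1) - 1 :=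
  ⟨fun h2 => (bound_two hd hP h2 (minors_of_fieldRank hP hK)).2,
    (bound_any hd hP one_ne_zero (minors_of_fieldRank hP hK)).2⟩

/-- Slack matrices with entries in a subring of `ℝ` and prescribed residues. -/
theorem corollary_slack (d : ℕ) (hd : 1 ≤ d) (P : Set (EuclideanSpace ℝ (Fin d)))
    (hP : IsPolytope P) (S : Matrix (Vertex P) (Facet P) ℝ) (hS : IsSlackMatrix P S)
    (O : Subring ℝ) (R : Type*) [CommRing R] (φ : O →+* R)
    (a : Vertex P → ℝ) (b : Facet P → ℝ) (A : Matrix (Vertex P) (Facet P) O)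
    (ha : ∀ v, a v ≠ 0) (hb : ∀ F, b F ≠ 0) (hSA : ∀ v F, S v F = a v * b F * (A v F : ℝ))
    (hφ : ∀ (v : Vertex P) (F : Facet P),
      (v : EuclideanSpace ℝ (Fin d)) ∉ (F : Set (EuclideanSpace ℝ (Fin d))) → φ (A v F) = 1) :
    ((2 : R) ≠ 0 → {F : Set (EuclideanSpace ℝ (Fin d)) | IsFacet P F}.ncard ≤ 2 ^ d) ∧
      ((1 : R) ≠ 0 →
        {F : Set (EuclideanSpace ℝ (Fin d)) | IsFacet P F}.ncard ≤ 2 ^ (d + 1) - 1) :=
  ⟨fun h2 => (bound_two hd hP h2 (minors_of_slack hS O φ a b ha hb A hSA hφ)).2,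
    fun h1 => (bound_any hd hP h1 (minors_of_slack hS O φ a b ha hb A hSA hφ)).2⟩

/-- Slack matrices that are, up to scaling, entrywise squares of integer matrices whose nonzero
entries are all prime to `3`, or all odd. -/
theorem corollary_square (d : ℕ) (hd : 1 ≤ d) (P : Set (EuclideanSpace ℝ (Fin d)))
    (hP : IsPolytope P) (S : Matrix (Vertex P) (Facet P) ℝ) (hS : IsSlackMatrix P S)
    (a : Vertex P → ℝ) (b : Facet P → ℝ) (M : Matrix (Vertex P) (Facet P) ℤ)
    (ha : ∀ v, a v ≠ 0) (hb : ∀ F, b F ≠ 0) (hSM : ∀ v F, S v F = a v * b F * (M v F : ℝ) ^ 2)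
    (hM : (∀ v F, M v F ≠ 0 → ¬ 3 ∣ M v F) ∨ (∀ v F, M v F ≠ 0 → ¬ 2 ∣ M v F)) :
    {F : Set (EuclideanSpace ℝ (Fin d)) | IsFacet P F}.ncard ≤ 2 ^ d := by
  rcases hM with hM | hM
  · have h2 : (2 : ZMod 3) ≠ 0 := by decide
    refine (bound_two hd hP h2 (minors_of_int hS 3 a b ha hb (fun v F => M v F ^ 2)
      (fun v F => by rw [hSM]; push_cast; rfl) (fun v F hne => ?_))).2
    have h3 : M v F ≠ 0 := fun hcon => hne (by simp [hcon])
    have h4 := hM v F h3
    have h5 : ((M v F : ℤ) : ZMod 3) ≠ 0 := by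
      intro hcon
      exact h4 ((ZMod.intCast_zmod_eq_zero_iff_dvd _ 3).1 hcon)
    push_cast
    generalize ((M v F : ℤ) : ZMod 3) = z at h5
    revert z
    decide
  · have h2 : (2 : ZMod 4) ≠ 0 := by decide
    refine (bound_two hd hP h2 (minors_of_int hS 4 a b ha hb (fun v F => M v F ^ 2)
      (fun v F => by rw [hSM]; push_cast; rfl) (fun v F hne => ?_))).2
    have h3 : M v F ≠ 0 := fun hcon => hne (by simp [hcon])
    have h4 := hM v F h3
    obtain ⟨k, hk⟩ : ∃ k, M v F = 2 * k + 1 := by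
      refine ⟨M v F / 2, ?_⟩
      omega
    show (((M v F) ^ 2 : ℤ) : ZMod 4) = 1
    have h5 : (M v F) ^ 2 = 4 * (k ^ 2 + k) + 1 := by rw [hk]; ring
    rw [h5]
    push_cast
    have h6 : (4 : ZMod 4) = 0 := by decide
    rw [h6]
    ring

/-- **Main result.** Let `P` be a `d`-polytope and `R` a commutative ring in which all minors of
size `d + 2` of the zero-one vertex-facet non-incidence matrix of `P` vanish.  Then `P` has at most
`2 ^ d` facets if `2 ≠ 0` in `R`, and at most `2 ^ (d + 1) - 1` facets if `1 ≠ 0` in `R`. -/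
theorem result (d : ℕ) (hd : 1 ≤ d) (P : Set (EuclideanSpace ℝ (Fin d))) (hP : IsPolytope P)
    (R : Type*) [CommRing R] (hmin : MinorsVanish (nonincidence P R) (d + 2)) :
    {F : Set (EuclideanSpace ℝ (Fin d)) | IsFacet P F}.Finite ∧
      ((2 : R) ≠ 0 → {F : Set (EuclideanSpace ℝ (Fin d)) | IsFacet P F}.ncard ≤ 2 ^ d) ∧
      ((1 : R) ≠ 0 →
        {F : Set (EuclideanSpace ℝ (Fin d)) | IsFacet P F}.ncard ≤ 2 ^ (d + 1) - 1) := by
  refine ⟨?_, fun h2 => (bound_two hd hP h2 hmin).2, fun h1 => (bound_any hd hP h1 hmin).2⟩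
  exact (bound_of d (Nat.card (Facet P)) hd P hP fun v h _ _ _ _ _ _ =>
    Nat.card_eq_fintype_card.ge).1

end Pool.Agent.Results.MP_d7e3e4_co.FieldRank
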