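import Mathlib
import Pool.Agent.Helper73.PsdGeom
import Pool.Agent.Helper73.PsdFin
import Pool.Agent.Helper80.Flats.Layered

/-!
# Layered families of facets of psd-minimal polytopes

A layered family of facets of a psd-minimal `d`-polytope has at most `2 ^ d` members. The facets
that are disjoint from another facet form a layered family. Hence a centrally symmetric
psd-minimal `d`-polytope has at most `2 ^ d` facets and at most `2 ^ d` vertices.
-/

namespace Pool.Agent.Results.MP_d7e3e4_co.LayeredFacets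

open Pool.Agent.Helper73.Psd Matrix

set_option maxHeartbeats 400000

/-- A `d`-polytope in `ℝ^d`: the convex hull of a finite set whose affine span is everything. -/
def IsPolytope {d : ℕ} (P : Set (EuclideanSpace ℝ (Fin d))) : Prop :=
  (∃ V : Set (EuclideanSpace ℝ (Fin d)), V.Finite ∧ P = convexHull ℝ V) ∧ affineSpan ℝ P = ⊤

/-- The vertices of `P`: its extreme points. -/
abbrev Vertex {d : ℕ} (P : Set (EuclideanSpace ℝ (Fin d))) : Type := ↥(P.extremePoints ℝ)

/-- `F` is a facet of `P`: a nonempty exposed face of affine dimension `d - 1`. -/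
def IsFacet {d : ℕ} (P F : Set (EuclideanSpace ℝ (Fin d))) : Prop :=
  IsExposed ℝ P F ∧ F.Nonempty ∧ Module.finrank ℝ (vectorSpan ℝ F) + 1 = d

/-- The facets of `P`. -/
abbrev Facet {d : ℕ} (P : Set (EuclideanSpace ℝ (Fin d))) : Type :=
  ↥{F : Set (EuclideanSpace ℝ (Fin d)) | IsFacet P F}

/-- `b - ⟪a, x⟫ ≥ 0` is a valid inequality of `P` that defines the face `F`. -/
def Defines {d : ℕ} (P F : Set (EuclideanSpace ℝ (Fin d))) (a : EuclideanSpace ℝ (Fin d))
    (b : ℝ) : Prop :=
  (∀ x ∈ P, 0 ≤ b - inner ℝ a x) ∧ F = {x | x ∈ P ∧ b - inner ℝ a x = 0}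

/-- `S` is a slack matrix of `P`: its entry at a vertex `v` and a facet `F` is
`b_F - ⟪a_F, v⟫`, where `b_F - ⟪a_F, x⟫ ≥ 0` is a facet-defining inequality of `F`. -/
def IsSlackMatrix {d : ℕ} (P : Set (EuclideanSpace ℝ (Fin d)))
    (S : Matrix (Vertex P) (Facet P) ℝ) : Prop :=
  ∃ (a : Facet P → EuclideanSpace ℝ (Fin d)) (b : Facet P → ℝ),
    (∀ F : Facet P, Defines P F (a F) (b F)) ∧
      ∀ (v : Vertex P) (F : Facet P), S v F = b F - inner ℝ (a F) (v : EuclideanSpace ℝ (Fin d))

/-- `S` has a psd factorization of size `k`. -/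
def HasPsdFactorization {ι κ : Type} (S : Matrix ι κ ℝ) (k : ℕ) : Prop :=
  ∃ (A : ι → Matrix (Fin k) (Fin k) ℝ) (B : κ → Matrix (Fin k) (Fin k) ℝ),
    (∀ i, (A i).PosSemidef) ∧ (∀ j, (B j).PosSemidef) ∧ ∀ i j, S i j = (A i * B j).trace

/-- The psd rank of `S`. -/
noncomputable def psdRank {ι κ : Type} (S : Matrix ι κ ℝ) : ℕ :=
  sInf {k | HasPsdFactorization S k}

/-- A `d`-polytope `P` is psd-minimal: it has a slack matrix of psd rank `d + 1`. -/
def IsPsdMinimal {d : ℕ} (P : Set (EuclideanSpace ℝ (Fin d))) : Prop :=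
  ∃ S : Matrix (Vertex P) (Facet P) ℝ, IsSlackMatrix P S ∧ psdRank S = d + 1

/-- A face defined by a valid inequality is the convex hull of its vertices. -/
theorem face_eq_convexHull {d : ℕ} {P : Set (EuclideanSpace ℝ (Fin d))}
    (hconv : convexHull ℝ (P.extremePoints ℝ) = P) (f : Module.Dual ℝ (EuclideanSpace ℝ (Fin d)))
    (c : ℝ) (hf : ∀ x ∈ P, 0 ≤ c - f x) :
    {x | x ∈ P ∧ c - f x = 0} = convexHull ℝ {x | x ∈ P.extremePoints ℝ ∧ c - f x = 0} := by
  apply Set.Subset.antisymm
  · rintro x ⟨hx, hx0⟩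
    rw [← hconv] at hx
    exact mem_convexHull_zeros _ f c (fun s hs => hf s (extremePoints_subset hs)) x hx hx0
  · apply convexHull_min
    · rintro x ⟨hx, hx0⟩
      exact ⟨extremePoints_subset hx, hx0⟩
    · have h1 : Convex ℝ P := by rw [← hconv]; exact convex_convexHull ℝ _
      have h2 : Convex ℝ {x | c - f x = 0} := by
        intro x hx y hy s t _ _ hst
        show c - f (s • x + t • y) = 0
        have hx' : c - f x = 0 := hx
        have hy' : c - f y = 0 := hy
        rw [map_add, map_smul, map_smul, smul_eq_mul, smul_eq_mul]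
        have h3 : c - (s * f x + t * f y) = s * (c - f x) + t * (c - f y) := by
          have h4 : c = s * c + t * c := by rw [← add_mul, hst, one_mul]
          linear_combination h4
        rw [h3, hx', hy']; ring
      exact h1.inter h2

/-- A staircase of length `m` in `W`: elements `w 0, ..., w (m - 1)` that satisfy `W` and
`g 0, ..., g (m - 1)` such that `w i` does not lie on `g i`, and `w i` lies on `g j` for `i < j`.
Here `I a b` means that `a` lies on `b`. -/
def Stair {α β : Type} (I : α → β → Prop) (W : α → Prop) (m : ℕ) : Prop :=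
  ∃ (w : Fin m → α) (g : Fin m → β),
    (∀ i, W (w i) ∧ ¬ I (w i) (g i)) ∧ ∀ i j, i < j → I (w i) (g j)

/-- The elements `a` that miss an element of `C`, or have a partner `a'` that misses an element of
`C` such that for each `l ∈ G` of at least the level of `b` one of `a`, `a'` lies on all
elements of `J l`. -/
def Wide {α β : Type} (I : α → β → Prop) (G : Finset β) (lvl : β → ℕ) (J : β → Finset β)
    (C : Finset β) (b : β) (a : α) : Prop :=
  (∃ j ∈ C, ¬ I a j) ∨ ∃ a', (∃ j ∈ C, ¬ I a' j) ∧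
    ∀ l ∈ G, lvl b ≤ lvl l → (∀ j ∈ J l, I a j) ∨ (∀ j ∈ J l, I a' j)

/-- Layered sets of facets of a `d`-polytope (`α` are the vertices, `β` the facets, and `I a b`
means that `a` lies on `b`). -/
def Layered {α β : Type} (I : α → β → Prop) (d : ℕ) (G : Finset β) : Prop :=
  ∃ (lvl : β → ℕ) (J C : β → Finset β),
    (∀ b ∈ G, b ∈ J b ∧ C b ⊆ J b ∧ (C b).Nonempty ∧
      (∀ j ∈ J b, ∀ l ∈ J b, j ≠ l → ∀ a, I a j ∨ I a l) ∧
      Stair I (fun a => ∀ j ∈ C b, I a j) (d + 1 - (C b).card) ∧
      Stair I (Wide I G lvl J (C b) b) (d + 1 - ((J b).card - (C b).card))) ∧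
    ∀ b ∈ G, ∀ l ∈ G, lvl b ≤ lvl l → (J b).card ≤ (J l).card

/-- The homogenised configuration of a psd-minimal polytope. -/
theorem exists_config (d : ℕ) (hd : 1 ≤ d) (P : Set (EuclideanSpace ℝ (Fin d)))
    (hP : IsPolytope P) (hmin : IsPsdMinimal P) :
    ∃ (_ : Fintype (Vertex P)) (_ : Fintype (Facet P)) (_ : DecidableEq (Vertex P))
      (v : Vertex P → EuclideanSpace ℝ (Fin d) × ℝ)
      (h : Facet P → Module.Dual ℝ (EuclideanSpace ℝ (Fin d) × ℝ)),
      Cfg v h (d + 1) ∧ PsdFac v h (d + 1) ∧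
      ∀ (F : Facet P) (i : Vertex P), h F (v i) = 0 ↔
        (i : EuclideanSpace ℝ (Fin d)) ∈ (F : Set (EuclideanSpace ℝ (Fin d))) := by
  classical
  obtain ⟨hfin, hconv⟩ := convexHull_extremePoints hP.1
  obtain ⟨S, ⟨a, b, hdef, hSval⟩, hrankS⟩ := hmin
  have : Fintype (Vertex P) := hfin.fintype
  -- the vertices are nonempty
  have hPne : P.Nonempty := by
    rw [Set.nonempty_iff_ne_empty]
    intro hcon
    have h1 := hP.2
    rw [hcon, AffineSubspace.span_empty] at h1
    exact bot_ne_top h1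
  have hextne : (P.extremePoints ℝ).Nonempty := by
    rw [Set.nonempty_iff_ne_empty]
    intro hcon
    rw [hcon, convexHull_empty] at hconv
    rw [← hconv] at hPne
    exact Set.not_nonempty_empty hPne
  -- homogenisation
  let v : Vertex P → EuclideanSpace ℝ (Fin d) × ℝ := fun i => ((i : EuclideanSpace ℝ (Fin d)), 1)
  let toF : Facet P → Module.Dual ℝ (EuclideanSpace ℝ (Fin d)) := fun F =>
    (innerSL ℝ (a F)).toLinearMap
  have htoF : ∀ F x, toF F x = inner ℝ (a F) x := fun F x => rfl
  let mk : Module.Dual ℝ (EuclideanSpace ℝ (Fin d)) → ℝ →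
      Module.Dual ℝ (EuclideanSpace ℝ (Fin d) × ℝ) := fun f c =>
    c • LinearMap.snd ℝ _ ℝ - f.comp (LinearMap.fst ℝ _ ℝ)
  have hmk : ∀ f c i, mk f c (v i) = c - f (i : EuclideanSpace ℝ (Fin d)) := by
    intro f c i
    simp [mk, v]
  let h : Facet P → Module.Dual ℝ (EuclideanSpace ℝ (Fin d) × ℝ) := fun F => mk (toF F) (b F)
  have hh : ∀ F i, h F (v i) = b F - inner ℝ (a F) (i : EuclideanSpace ℝ (Fin d)) := by
    intro F i
    rw [show h F = mk (toF F) (b F) from rfl, hmk, htoF]
  -- faces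
  have hface : ∀ F : Facet P, (F : Set (EuclideanSpace ℝ (Fin d))) =
      convexHull ℝ {x | x ∈ P.extremePoints ℝ ∧ b F - inner ℝ (a F) x = 0} := by
    intro F
    have h1 := face_eq_convexHull hconv (toF F) (b F) (hdef F).1
    rw [(hdef F).2]
    exact h1
  have hmemF : ∀ (F : Facet P) (i : Vertex P), h F (v i) = 0 ↔
      (i : EuclideanSpace ℝ (Fin d)) ∈ (F : Set (EuclideanSpace ℝ (Fin d))) := by
    intro F i
    rw [hh, (hdef F).2]
    constructor
    · intro h1
      exact ⟨extremePoints_subset i.2, h1⟩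
    · rintro ⟨_, h1⟩
      exact h1
  have hdetF : ∀ F G : Facet P, (∀ i, h F (v i) = 0 ↔ h G (v i) = 0) → F = G := by
    intro F G hFG
    apply Subtype.ext
    rw [hface F, hface G]
    congr 1
    ext x
    constructor
    · rintro ⟨hx, hx0⟩
      refine ⟨hx, ?_⟩
      have h1 := (hFG ⟨x, hx⟩).1 (by rw [hh]; exact hx0)
      rwa [hh] at h1
    · rintro ⟨hx, hx0⟩
      refine ⟨hx, ?_⟩
      have h1 := (hFG ⟨x, hx⟩).2 (by rw [hh]; exact hx0)
      rwa [hh] at h1
  have hfinF : Finite (Facet P) := by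
    refine Finite.of_injective (fun F : Facet P => {i : Vertex P | h F (v i) = 0}) ?_
    intro F G hFG
    apply hdetF
    intro i
    exact Set.ext_iff.1 hFG i
  have : Fintype (Facet P) := Fintype.ofFinite _
  -- ranks
  have hrk : ∀ T : Finset (Vertex P), T.Nonempty →
      rk v T = Module.finrank ℝ (vectorSpan ℝ
        ((fun i : Vertex P => (i : EuclideanSpace ℝ (Fin d))) '' (T : Set (Vertex P)))) + 1 := by
    intro T hT
    rw [← finrank_span_homog _ (Set.Nonempty.image _ (Finset.coe_nonempty.2 hT))]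
    rw [rk, Set.image_image]
  have hface_rk : ∀ (f : Module.Dual ℝ (EuclideanSpace ℝ (Fin d))) (c : ℝ),
      (∀ x ∈ P, 0 ≤ c - f x) → (zs v (mk f c) Finset.univ).Nonempty →
      rk v (zs v (mk f c) Finset.univ) =
        Module.finrank ℝ (vectorSpan ℝ {x | x ∈ P ∧ c - f x = 0}) + 1 := by
    intro f c hf hne
    have hset : ((fun i : Vertex P => (i : EuclideanSpace ℝ (Fin d))) ''
        (zs v (mk f c) Finset.univ : Set (Vertex P))) =
        {x | x ∈ P.extremePoints ℝ ∧ c - f x = 0} := by
      ext x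
      constructor
      · rintro ⟨i, hi, rfl⟩
        refine ⟨i.2, ?_⟩
        rw [← hmk]
        exact (mem_zs.1 (Finset.mem_coe.1 hi)).2
      · rintro ⟨hx, hx0⟩
        exact ⟨⟨x, hx⟩, Finset.mem_coe.2 (mem_zs.2 ⟨Finset.mem_univ _, by rw [hmk]; exact hx0⟩),
          rfl⟩
    rw [hrk _ hne, face_eq_convexHull hconv f c hf, vectorSpan_convexHull, hset]
  have hrank : rk v Finset.univ = d + 1 := by
    rw [hrk _ (Finset.univ_nonempty_iff.2 ⟨⟨_, hextne.some_mem⟩⟩)]
    have h1 : (fun i : Vertex P => (i : EuclideanSpace ℝ (Fin d))) ''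
        ((Finset.univ : Finset (Vertex P)) : Set (Vertex P)) = P.extremePoints ℝ := by
      rw [Finset.coe_univ, Set.image_univ]
      exact Subtype.range_coe
    rw [h1, ← vectorSpan_convexHull, hconv, ← direction_affineSpan, hP.2,
      AffineSubspace.direction_top, finrank_top, finrank_euclideanSpace, Fintype.card_fin]
  have hE : Module.finrank ℝ (EuclideanSpace ℝ (Fin d) × ℝ) = d + 1 := by
    rw [Module.finrank_prod, finrank_euclideanSpace, Fintype.card_fin, Module.finrank_self]
  have hpos : ∃ g0 : Module.Dual ℝ (EuclideanSpace ℝ (Fin d) × ℝ), ∀ i, 0 < g0 (v i) :=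
    ⟨LinearMap.snd ℝ _ ℝ, fun i => by simp [v]⟩
  have hvert : ∀ i, IsFace v {i} := by
    intro i
    obtain ⟨f, hf⟩ := exists_exposing hfin hconv i i.2
    refine ⟨mk (-f.toLinearMap) (-f i), ?_, ?_⟩
    · intro j
      rw [hmk]
      by_cases hij : j = i
      · subst hij; simp
      · have h1 := hf j j.2 (fun hcon => hij (Subtype.ext hcon))
        simp only [LinearMap.neg_apply, ContinuousLinearMap.coe_coe]
        linarith
    · ext j
      rw [Finset.mem_singleton, mem_zs, hmk]
      constructor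
      · rintro rfl; simp
      · rintro ⟨_, h1⟩
        by_contra hij
        have h2 := hf j j.2 (fun hcon => hij (Subtype.ext hcon))
        simp only [LinearMap.neg_apply, ContinuousLinearMap.coe_coe] at h1
        linarith
  have hne_zs : ∀ F : Facet P, (zs v (h F) Finset.univ).Nonempty := by
    intro F
    obtain ⟨_, ⟨x, hx⟩, _⟩ := F.2
    rw [hface F] at hx
    have h1 : {x | x ∈ P.extremePoints ℝ ∧ b F - inner ℝ (a F) x = 0}.Nonempty :=
      convexHull_nonempty_iff.1 ⟨x, hx⟩
    obtain ⟨z, hz, hz0⟩ := h1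
    exact ⟨⟨z, hz⟩, mem_zs.2 ⟨Finset.mem_univ _, by rw [hh]; exact hz0⟩⟩
  have hk : ∀ F : Facet P, (∀ i, 0 ≤ h F (v i)) ∧
      rk v (zs v (h F) Finset.univ) + 1 = rk v Finset.univ := by
    intro F
    refine ⟨fun i => ?_, ?_⟩
    · rw [hh]
      exact (hdef F).1 _ (extremePoints_subset i.2)
    · have h1 := hface_rk (toF F) (b F) (hdef F).1 (hne_zs F)
      have h2 : {x | x ∈ P ∧ b F - toF F x = 0} = (F : Set (EuclideanSpace ℝ (Fin d))) :=
        (hdef F).2.symm
      rw [h2] at h1
      have h3 : Module.finrank ℝ (vectorSpan ℝ (F : Set (EuclideanSpace ℝ (Fin d)))) + 1 = d :=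
        F.2.2.2
      have h4 : rk v (zs v (h F) Finset.univ) = rk v (zs v (mk (toF F) (b F)) Finset.univ) := rfl
      rw [hrank, h4, h1, h3]
  have hfacet : ∀ g : Module.Dual ℝ (EuclideanSpace ℝ (Fin d) × ℝ), (∀ i, 0 ≤ g (v i)) →
      rk v (zs v g Finset.univ) + 1 = rk v Finset.univ →
      ∃ k, zs v (h k) Finset.univ = zs v g Finset.univ := by
    intro g hg hgr
    let f : Module.Dual ℝ (EuclideanSpace ℝ (Fin d)) := -(g.comp (LinearMap.inl ℝ _ ℝ))
    let c : ℝ := g (0, 1)
    have hgf : ∀ x, g (x, 1) = c - f x := by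
      intro x
      have h1 : ((x, (1 : ℝ)) : EuclideanSpace ℝ (Fin d) × ℝ) = (x, 0) + (0, 1) := by
        ext <;> simp
      rw [h1, map_add]
      simp only [f, c, LinearMap.neg_apply, LinearMap.comp_apply, LinearMap.inl_apply]
      ring
    have hg_eq : ∀ i, g (v i) = mk f c (v i) := by
      intro i
      rw [hmk]
      exact hgf _
    have hzs_eq : zs v g Finset.univ = zs v (mk f c) Finset.univ := by
      ext i
      rw [mem_zs, mem_zs, hg_eq]
    have hfP : ∀ x ∈ P, 0 ≤ c - f x := by
      have h1 : convexHull ℝ (P.extremePoints ℝ) ⊆ {x | 0 ≤ c - f x} := by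
        apply convexHull_min
        · intro x hx
          have h2 := hg ⟨x, hx⟩
          rw [hg_eq, hmk] at h2
          exact h2
        · intro x hx y hy s t hs ht hst
          show 0 ≤ c - f (s • x + t • y)
          have hx' : 0 ≤ c - f x := hx
          have hy' : 0 ≤ c - f y := hy
          rw [map_add, map_smul, map_smul, smul_eq_mul, smul_eq_mul]
          have h3 : c - (s * f x + t * f y) = s * (c - f x) + t * (c - f y) := by
            have h4 : c = s * c + t * c := by rw [← add_mul, hst, one_mul]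
            linear_combination h4
          rw [h3]
          positivity
      intro x hx
      rw [← hconv] at hx
      exact h1 hx
    have hne : (zs v (mk f c) Finset.univ).Nonempty := by
      rw [Finset.nonempty_iff_ne_empty]
      intro hcon
      rw [hzs_eq, hcon, hrank, rk, Finset.coe_empty, Set.image_empty, Submodule.span_empty,
        finrank_bot] at hgr
      omega
    have hr := hface_rk f c hfP hne
    obtain ⟨i0, hi0⟩ := hne
    have hi0' : c - f (i0 : EuclideanSpace ℝ (Fin d)) = 0 := by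
      rw [← hmk]; exact (mem_zs.1 hi0).2
    have hF0 : IsFacet P {x | x ∈ P ∧ c - f x = 0} := by
      refine ⟨?_, ⟨i0, extremePoints_subset i0.2, hi0'⟩, ?_⟩
      · intro _
        refine ⟨LinearMap.toContinuousLinearMap f, ?_⟩
        ext x
        constructor
        · rintro ⟨hx, hx0⟩
          refine ⟨hx, fun y hy => ?_⟩
          have h1 := hfP y hy
          rw [LinearMap.coe_toContinuousLinearMap']
          linarith
        · rintro ⟨hx, hx0⟩
          refine ⟨hx, ?_⟩
          have h1 := hx0 i0 (extremePoints_subset i0.2)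
          have h2 := hfP x hx
          rw [LinearMap.coe_toContinuousLinearMap'] at h1
          linarith
      · rw [← hr, ← hzs_eq]
        omega
    refine ⟨⟨_, hF0⟩, ?_⟩
    ext i
    rw [mem_zs, mem_zs, hmemF, hg_eq, hmk]
    constructor
    · rintro ⟨_, _, h1⟩
      exact ⟨Finset.mem_univ _, h1⟩
    · rintro ⟨_, h1⟩
      exact ⟨Finset.mem_univ _, extremePoints_subset i.2, h1⟩
  have hinj : ∀ F G : Facet P, zs v (h F) Finset.univ = zs v (h G) Finset.univ → F = G := by
    intro F G hFG
    apply hdetF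
    intro i
    have h1 := Finset.ext_iff.1 hFG i
    rw [mem_zs, mem_zs] at h1
    simpa using h1
  -- the psd factorization
  have hfact : HasPsdFactorization S (d + 1) := by
    have h1 : (sInf {k | HasPsdFactorization S k}) ∈ {k | HasPsdFactorization S k} := by
      apply Nat.sInf_mem
      apply Nat.nonempty_of_pos_sInf
      have : psdRank S = sInf {k | HasPsdFactorization S k} := rfl
      rw [← this, hrankS]
      exact Nat.succ_pos d
    have h2 : sInf {k | HasPsdFactorization S k} = d + 1 := hrankS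
    rw [h2] at h1
    exact h1
  obtain ⟨A, B, hA, hB, hAB⟩ := hfact
  have hcfg : Cfg v h (d + 1) :=
    ⟨hE, hrank, hpos, hvert, fun F i => (hk F).1 i, fun F => (hk F).2.trans hrank,
      fun g hg hr => hfacet g hg (hr.trans hrank.symm), hinj⟩
  have hfac : PsdFac v h (d + 1) := ⟨A, B, hA, hB, fun i F => by rw [hh, ← hSval, hAB]⟩
  exact ⟨inferInstance, inferInstance, inferInstance, v, h, hcfg, hfac, hmemF⟩

/-- The bound and the main example for a configuration. -/
theorem main_config {ι κ E : Type} [Fintype ι] [Fintype κ] [DecidableEq ι] [DecidableEq κ]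
    [AddCommGroup E] [Module ℝ E] [FiniteDimensional ℝ E] {v : ι → E}
    {h : κ → Module.Dual ℝ E} {d : ℕ} (C : Cfg v h (d + 1)) (R : PsdFac v h (d + 1))
    (I : ι → κ → Prop) (hI : ∀ i k, h k (v i) = 0 ↔ I i k) :
    (∀ G : Finset κ, Layered I d G → G.card ≤ 2 ^ d) ∧
      ∀ G : Finset κ, (∀ k ∈ G, ∃ k', ∀ i, ¬ (I i k ∧ I i k')) → Layered I d G := by
  have hI' : I = (fun i k => h k (v i) = 0) := by
    funext i k
    exact propext (hI i k).symm
  subst hI'
  exact ⟨fun G hG => Pool.Agent.Helper80.Flats.layered_card_le C R rfl G hG,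
    fun G hG => Pool.Agent.Helper80.Flats.layered_of_disjoint C rfl G hG⟩

/-- The point reflection of a facet of a centrally symmetric polytope is a facet. -/
theorem isFacet_neg {d : ℕ} {P F : Set (EuclideanSpace ℝ (Fin d))} (hsym : ∀ x ∈ P, -x ∈ P)
    (hF : IsFacet P F) : IsFacet P {x | -x ∈ F} := by
  obtain ⟨h1, ⟨x0, hx0⟩, h3⟩ := hF
  refine ⟨?_, ⟨-x0, ?_⟩, ?_⟩
  · intro _
    obtain ⟨l, hl⟩ := h1 ⟨x0, hx0⟩
    refine ⟨-l, ?_⟩
    ext x
    constructor
    · intro hx
      have hx' : -x ∈ F := hx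
      rw [hl] at hx'
      refine ⟨?_, fun y hy => ?_⟩
      · have := hsym _ hx'.1
        rwa [neg_neg] at this
      · have := hx'.2 (-y) (hsym y hy)
        rw [map_neg, map_neg] at this
        exact this
    · rintro ⟨hx, hx'⟩
      show -x ∈ F
      rw [hl]
      refine ⟨hsym x hx, fun y hy => ?_⟩
      have h9 : -(l (-y)) ≤ -(l x) := hx' (-y) (hsym y hy)
      rw [map_neg, neg_neg] at h9
      rw [map_neg]
      exact h9
  · show - -x0 ∈ F
    rwa [neg_neg]
  · have h4 : vectorSpan ℝ {x | -x ∈ F} = vectorSpan ℝ F := by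
      rw [vectorSpan_def, vectorSpan_def]
      congr 1
      ext w
      constructor
      · rintro ⟨a, ha, b, hb, rfl⟩
        refine ⟨-b, hb, -a, ha, ?_⟩
        show -b - -a = a - b
        abel
      · rintro ⟨a, ha, b, hb, rfl⟩
        refine ⟨-b, ?_, -a, ?_, ?_⟩
        · show - -b ∈ F
          rwa [neg_neg]
        · show - -a ∈ F
          rwa [neg_neg]
        · show -b - -a = a - b
          abel
    rw [h4]
    exact h3

/-- Opposite points of a facet of a centrally symmetric polytope. -/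
theorem not_mem_neg {d : ℕ} {P F : Set (EuclideanSpace ℝ (Fin d))} (hP : IsPolytope P)
    (hsym : ∀ x ∈ P, -x ∈ P) (hF : IsFacet P F) (x : EuclideanSpace ℝ (Fin d)) (hx : x ∈ F)
    (hx' : -x ∈ F) : False := by
  obtain ⟨h1, h2, h3⟩ := hF
  obtain ⟨l, hl⟩ := h1 h2
  rw [hl] at hx hx'
  have h4 : ∀ y ∈ P, l y = 0 := by
    intro y hy
    have h5 := hx.2 y hy
    have h6 := hx'.2 y hy
    have h7 := hx.2 (-y) (hsym y hy)
    have h8 := hx'.2 (-y) (hsym y hy)
    rw [map_neg] at h6 h7 h8
    rw [map_neg] at h8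
    linarith
  have h5 : F = P := by
    rw [hl]
    ext y
    constructor
    · exact fun hy => hy.1
    · exact fun hy => ⟨hy, fun z hz => by rw [h4 z hz, h4 y hy]⟩
  rw [h5, ← direction_affineSpan, hP.2, AffineSubspace.direction_top, finrank_top,
    finrank_euclideanSpace, Fintype.card_fin] at h3
  omega

/-- **Main result.** A layered set of facets of a psd-minimal `d`-polytope has at most `2 ^ d`
members, and the facets that are disjoint from another facet form a layered set. A centrally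
symmetric psd-minimal `d`-polytope has at most `2 ^ d` facets and at most `2 ^ d` vertices. -/
theorem result (d : ℕ) (hd : 1 ≤ d) (P : Set (EuclideanSpace ℝ (Fin d)))
    (hP : IsPolytope P) (hmin : IsPsdMinimal P) :
    Finite (Facet P) ∧
    (∀ G : Finset (Facet P), Layered (fun (v : Vertex P) (F : Facet P) =>
      (v : EuclideanSpace ℝ (Fin d)) ∈ (F : Set (EuclideanSpace ℝ (Fin d)))) d G →
      G.card ≤ 2 ^ d) ∧
    (∀ G : Finset (Facet P), (∀ F ∈ G, ∃ F' : Facet P,
      Disjoint (F : Set (EuclideanSpace ℝ (Fin d))) (F' : Set (EuclideanSpace ℝ (Fin d)))) →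
      Layered (fun (v : Vertex P) (F : Facet P) =>
        (v : EuclideanSpace ℝ (Fin d)) ∈ (F : Set (EuclideanSpace ℝ (Fin d)))) d G) ∧
    ((∀ x ∈ P, -x ∈ P) → Nat.card (Facet P) ≤ 2 ^ d ∧ Nat.card (Vertex P) ≤ 2 ^ d) := by
  classical
  obtain ⟨_, _, _, v, h, C, R, hmem⟩ := exists_config d hd P hP hmin
  have h1 := main_config C R (fun (v : Vertex P) (F : Facet P) =>
    (v : EuclideanSpace ℝ (Fin d)) ∈ (F : Set (EuclideanSpace ℝ (Fin d)))) fun i k => hmem k i
  have h2 := main_config C.dual R.swap (fun (F : Facet P) (v : Vertex P) =>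
    (v : EuclideanSpace ℝ (Fin d)) ∈ (F : Set (EuclideanSpace ℝ (Fin d)))) fun k i => hmem k i
  refine ⟨inferInstance, h1.1, fun G hG => h1.2 G fun F hF => ?_, fun hsym => ⟨?_, ?_⟩⟩
  · obtain ⟨F', hF'⟩ := hG F hF
    exact ⟨F', fun a ha => Set.disjoint_left.1 hF' ha.1 ha.2⟩
  · rw [Nat.card_eq_fintype_card, ← Finset.card_univ]
    refine h1.1 _ (h1.2 _ fun F _ => ?_)
    exact ⟨⟨_, isFacet_neg hsym F.2⟩, fun a ha => not_mem_neg hP hsym F.2 a ha.1 ha.2⟩
  · rw [Nat.card_eq_fintype_card, ← Finset.card_univ]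
    refine h2.1 _ (h2.2 _ fun w _ => ?_)
    have hw : -(w : EuclideanSpace ℝ (Fin d)) ∈ P.extremePoints ℝ := by
      rw [mem_extremePoints]
      refine ⟨hsym _ (extremePoints_subset w.2), fun a ha b hb hab => ?_⟩
      have h3 := (mem_extremePoints.1 w.2).2 (-a) (hsym a ha) (-b) (hsym b hb) (by
        obtain ⟨s, t, hs, ht, hst, h4⟩ := hab
        refine ⟨s, t, hs, ht, hst, ?_⟩
        rw [smul_neg, smul_neg, ← neg_add, h4, neg_neg])
      rw [neg_eq_iff_eq_neg, neg_eq_iff_eq_neg] at h3
      exact h3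
    exact ⟨⟨_, hw⟩, fun F hF => not_mem_neg hP hsym F.2 _ hF.1 hF.2⟩

end Pool.Agent.Results.MP_d7e3e4_co.LayeredFacets
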